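import Pool.Agent.Helper12.MA.StC

/-!
# Project MA, module GAB: in the left side, the face consists of the vertices cofacial with the deleted vertex
-/

set_option autoImplicit false

namespace Pool.Agent.Helper44.MA

open Pool.Agent.Helper12.MA
open Pool.Agent.Helper51.AJ (IsMinor Planar Apex ExMinor Con Tch)
open Pool.Agent.Helper12.NK (rst Kc add cnt Pcy IsFace Cof plus)

variable {V : Type}

/-- a connected set which meets `A` and its complement contains an edge between them -/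
private theorem cross {M : SimpleGraph V} {S A : Set V} (h : Con M S) {a b : V} (ha : a ∈ S) (haA : a ∈ A)
    (hb : b ∈ S) (hbA : b ∉ A) : ∃ x ∈ S, ∃ y ∈ S, x ∈ A ∧ y ∉ A ∧ M.Adj x y := by
  by_contra hno
  push Not at hno
  have hr : (M.induce S).Reachable ⟨a, ha⟩ ⟨b, hb⟩ := h.preconnected _ _
  obtain ⟨w⟩ := hr
  have key : ∀ (x y : S), (M.induce S).Walk x y → x.1 ∈ A → y.1 ∈ A := by
    intro x y w
    induction w with
    | nil => exact fun h => h
    | @cons x y z hadj _ ih =>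
      intro hx
      apply ih
      by_contra hy
      exact hno x.1 x.2 y.1 y.2 hx hy hadj
  exact hbA (key _ _ w haA)

theorem hGAB : StFAX → StFAY → StLNV → StPCL → StBAS → StRIM → StCUA → StGAA → StGAB := by
  intro hFAX hFAY hLNV hPCL hBAS hRIM hCUA hGAA V _ G z v p q r r' f1 f2 f3 f4 hC σ b X Y Γ hcut hN
  obtain ⟨hσΓ, hΓY, hf3X, ⟨hcXΓ, hpXΓ⟩, hcσ, k, j, g, hjk, hg0, hgk, hgj, hinj, hΓg, hadj, hgX, hgY⟩ :=
    hGAA V G z v p q r r' f1 f2 f3 f4 hC σ b X Y Γ hcut hN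
  obtain ⟨-, -, ⟨-, -, -, -, -, hf3, hcf3X, -, ⟨a₁, ha₁, hba₁⟩, ⟨a₂, ha₂, hba₂⟩⟩, -, -⟩ :=
    hCUA V G z v p q r r' f1 f2 f3 f4 hC σ b X Y hcut
  obtain ⟨P1, P2, P3, P4, -, -⟩ := hPCL V (dl G p q) {v}ᶜ
  have hsep := hcut.sep
  -- the position of the four vertices
  have hQ : ∀ x, x ∈ X ∪ Y ↔ x ∉ ({v, z, σ, b} : Set V) := by
    intro x
    rw [hsep.cov]
    rfl
  have hX : ∀ x ∈ X, x ≠ v ∧ x ≠ z ∧ x ≠ σ ∧ x ≠ b := by
    intro x hx
    have := (hQ x).1 (Or.inl hx)
    simpa using this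
  have hY : ∀ x ∈ Y, x ≠ v ∧ x ≠ z ∧ x ≠ σ ∧ x ≠ b := by
    intro x hx
    have := (hQ x).1 (Or.inr hx)
    simpa using this
  have hXY : ∀ x ∈ X, x ∉ Y := fun x hx hy => Set.disjoint_left.1 hsep.dis hx hy
  have hcard := hsep.card
  have hσb : σ ≠ b := by
    rintro rfl
    have h1 : ({v, z, σ, σ} : Set V) = {v, z, σ} := by
      ext x
      simp
    rw [h1] at hcard
    have := Set.ncard_insert_le v ({z, σ} : Set V)
    have h2 := Set.ncard_insert_le z ({σ} : Set V)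
    rw [Set.ncard_singleton] at h2
    omega
  have hzb : z ≠ b := by
    rintro rfl
    have h1 : ({v, z, σ, z} : Set V) = {v, z, σ} := by
      ext x
      simp only [Set.mem_insert_iff, Set.mem_singleton_iff]
      tauto
    rw [h1] at hcard
    have := Set.ncard_insert_le v ({z, σ} : Set V)
    have h2 := Set.ncard_insert_le z ({σ} : Set V)
    rw [Set.ncard_singleton] at h2
    omega
  have hzσ : z ≠ σ := by
    rintro rfl
    have h1 : ({v, z, z, b} : Set V) = {v, z, b} := by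
      ext x
      simp
    rw [h1] at hcard
    have := Set.ncard_insert_le v ({z, b} : Set V)
    have h2 := Set.ncard_insert_le z ({b} : Set V)
    rw [Set.ncard_singleton] at h2
    omega
  have hvb : v ≠ b := by
    rintro rfl
    have h1 : ({v, z, σ, v} : Set V) = {v, z, σ} := by
      ext x
      simp only [Set.mem_insert_iff, Set.mem_singleton_iff]
      tauto
    rw [h1] at hcard
    have := Set.ncard_insert_le v ({z, σ} : Set V)
    have h2 := Set.ncard_insert_le z ({σ} : Set V)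
    rw [Set.ncard_singleton] at h2
    omega
  have hvσ : v ≠ σ := by
    rintro rfl
    have h1 : ({v, z, v, b} : Set V) = {v, z, b} := by
      ext x
      simp only [Set.mem_insert_iff, Set.mem_singleton_iff]
      tauto
    rw [h1] at hcard
    have := Set.ncard_insert_le v ({z, b} : Set V)
    have h2 := Set.ncard_insert_le z ({b} : Set V)
    rw [Set.ncard_singleton] at h2
    omega
  have hbf1 : b ∉ f1 := by
    intro h
    have : b ∈ f1 ∩ f3 := ⟨h, hcut.bf⟩
    rw [hC.x13] at this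
    exact hzb (Set.mem_singleton_iff.1 this).symm
  have hr'X : r' ∈ X := hcut.sX
  have hpX : p ∈ X := hsep.xL
  have hqY : q ∈ Y := hsep.yR
  -- from cofacial to the face
  have forth : ∀ t ∈ X, Cof (dl G p q) {v}ᶜ b t → t ∈ Γ := by
    rintro t htX ⟨F, hF, hbF, htF⟩
    by_contra htΓ
    have c1 : PC (dl G p q) {v}ᶜ (X \ Γ) ∅ := P1 _ (fun x hx => (hX x hx.1).1) hcXΓ
    have c2 : PC (dl G p q) {v}ᶜ {b} {F, f3} := by
      apply P4 b _ hvb.symm
      intro F' hF'
      rcases hF' with rfl | hF'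
      · exact hbF
      · rw [Set.mem_singleton_iff.1 hF']
        exact hcut.bf
    have c3 := P3 _ _ _ _ c1 c2 (Or.inr (Or.inl ⟨t, ⟨htX, htΓ⟩, F, Or.inl rfl, hF, htF⟩))
    have c4 : PC (dl G p q) {v}ᶜ ((Γ ∩ X) ∪ {σ}) ∅ := by
      apply P1 _ _ hcσ
      intro x hx
      rcases hx with hx | hx
      · exact (hX x hx.2).1
      · rw [Set.mem_singleton_iff.1 hx]
        exact hvσ.symm
    have c5 : PC (dl G p q) {v}ᶜ ∅ {f1} := P2 _ hC.i1
    have c6 := P3 _ _ _ _ c4 c5 (Or.inr (Or.inl ⟨σ, Or.inr rfl, f1, rfl, hC.i1, hcut.sf⟩))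
    refine hRIM V G z v p q r r' f1 f2 f3 f4 hC _ _ _ _ c3 c6 ?_ ?_ ?_ ?_ 0 1 5 6 (by decide) (by decide)
      (by decide) (Or.inl ⟨rfl, Or.inl hpXΓ⟩) (Or.inr (Or.inl ⟨rfl, Or.inr rfl⟩)) ?_ ?_
    · rw [Set.disjoint_left]
      rintro x (hx | hx) ((hx' | hx') | hx')
      · exact hx.2 hx'.1
      · exact (hX x hx.1).2.2.1 hx'
      · exact hx'
      · exact (hX x hx'.2).2.2.2 hx
      · exact hσb ((Set.mem_singleton_iff.1 hx').symm.trans (Set.mem_singleton_iff.1 hx))
      · exact hx'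
    · rw [Set.disjoint_left]
      rintro F' (hx | hx) (hx' | hx')
      · exact hx
      · exact hx
      · exact hx'
      · have hF' : F' = f1 := hx'
        rcases hx with hx | hx
        · exact hbf1 (hF' ▸ hx ▸ hbF)
        · have h3 : F' = f3 := hx
          exact hbf1 (hF' ▸ h3 ▸ hcut.bf)
    · rintro (hx | hx)
      · exact (hX z hx.1).2.1 rfl
      · exact hzb hx
    · rintro ((hx | hx) | hx)
      · exact (hX z hx.2).2.1 rfl
      · exact hzσ hx
      · exact hx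
    · refine Or.inr (Or.inr (Or.inr (Or.inr (Or.inr (Or.inl ⟨rfl, Or.inr (Or.inr rfl)⟩)))))
    · refine Or.inr (Or.inr (Or.inr (Or.inr (Or.inr (Or.inr (Or.inl ⟨rfl, Or.inl (Or.inl ⟨hN.s, hr'X⟩)⟩))))))
  intro t htX
  refine ⟨fun htΓ => ?_, forth t htX⟩
  by_contra hcof
  -- the elements of the path in the left side
  have hidx : ∀ x ∈ X, x ∈ Γ → ∃ l, l < j ∧ x = g l := by
    intro x hx hxΓ
    rw [hΓg] at hxΓ
    rcases hxΓ with hxz | ⟨l, hl, hxl⟩
    · exact absurd hxz (hX x hx).2.1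
    · refine ⟨l, ?_, hxl⟩
      by_contra hlt
      rcases Nat.lt_or_ge j l with h | h
      · exact hXY x hx (hxl ▸ hgY l h hl)
      · have : l = j := by omega
        subst this
        exact (hX x hx).2.2.1 (hxl.trans hgj)
  obtain ⟨i, hij, hti⟩ := hidx t htX htΓ
  set A : Set V := {x | ∃ l, l < i ∧ x = g l} with hA
  have htf3 : t ∉ f3 := fun h => hcof ⟨f3, hC.i3, hcut.bf, h⟩
  have hi0 : 0 < i := by
    rcases Nat.eq_zero_or_pos i with h | h
    · exfalso
      apply htf3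
      rw [hti, h, hg0]
      exact hC.s3
    · exact h
  have hr'A : r' ∈ A := ⟨0, hi0, hg0.symm⟩
  have hf3A : f3 ∩ X ⊆ A := by
    intro x hx
    by_contra hxA
    obtain ⟨n, hn, n', hn', hnA, hn'A, hnn'⟩ := cross hcf3X (A := A) ⟨hC.s3, hr'X⟩ hr'A hx hxA
    obtain ⟨a, hai, hna⟩ := hnA
    obtain ⟨l, hlj, hn'l⟩ := hidx n' hn'.2 (hf3X hn')
    have hli : i < l := by
      rcases Nat.lt_trichotomy l i with h | h | h
      · exact absurd ⟨l, h, hn'l⟩ hn'A
      · exfalso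
        apply htf3
        rw [hti, ← h, ← hn'l]
        exact hn'.1
      · exact h
    have h1 : G.Adj (g a) (g l) := by
      rw [← hna, ← hn'l]
      exact hnn'.1
    have := (hadj a l (by omega) (by omega)).1 h1
    omega
  have hbp : b ≠ p := fun h => (hX p hpX).2.2.2 h.symm
  have hbq : b ≠ q := fun h => (hY q hqY).2.2.2 h.symm
  have hPn : Pn (dl G p q) {v}ᶜ := ⟨(hBAS V G hC.bh).2.2.2.2.1 v p q, hC.ds.pl⟩
  have hAX : ∀ x ∈ A, x ∈ X := by
    rintro x ⟨l, hl, rfl⟩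
    exact hgX l (by omega)
  obtain ⟨F, hF, hFf3, hbF, c, hcF, d, hdF, hbc, hbd, hcA, hdA⟩ :=
    hLNV V (dl G p q) {v}ᶜ b f3 A a₁ a₂ hPn hC.i3 hcut.bf ha₁.1 ha₂.1
      ⟨hba₁, fun h => hbp h.1, fun h => hbq h.1⟩ ⟨hba₂, fun h => hbp h.1, fun h => hbq h.1⟩
      (hf3A ha₁) (fun h => hXY a₂ (hAX a₂ h) ha₂.2)
  have hzF : z ∉ F := by
    intro hz
    rcases hC.all F hF hz with h | h | h | h
    · exact hbf1 (h ▸ hbF)
    · have h1 : b ∈ f2 ∩ f3 := ⟨h ▸ hbF, hcut.bf⟩
      rw [hC.x23] at h1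
      rcases h1 with h1 | h1
      · exact hzb h1.symm
      · exact hbq h1
    · exact hFf3 h
    · have h1 : b ∈ f3 ∩ f4 := ⟨hcut.bf, h ▸ hbF⟩
      rw [hC.x34] at h1
      rcases h1 with h1 | h1
      · exact hzb h1.symm
      · exact (hX r' hr'X).2.2.2 (Set.mem_singleton_iff.1 h1).symm
  have htF : t ∉ F := fun h => hcof ⟨F, hF, hbF, h⟩
  have hcon : Con (dl G p q) (F \ {b}) := (hFAY V (dl G p q) {v}ᶜ F hF b hbF).1
  obtain ⟨n, hn, n', hn', hnA, hn'A, hnn'⟩ := cross hcon (A := A)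
    ⟨hcF, fun h => (hX c (hAX c hcA)).2.2.2 h⟩ hcA
    ⟨hdF, fun h => (dl G p q).ne_of_adj hbd (Set.mem_singleton_iff.1 h).symm⟩ hdA
  obtain ⟨a, hai, hna⟩ := hnA
  have hFU : F ⊆ {v}ᶜ := (hFAX V (dl G p q) {v}ᶜ F hF).1
  by_cases hn'Q : n' ∈ ({v, z, σ, b} : Set V)
  · rcases hn'Q with h | h | h | h
    · exact hFU hn'.1 h
    · exact hzF (h ▸ hn'.1)
    · have h1 : G.Adj (g a) (g j) := by
        rw [← hna, hgj, ← h]
        exact hnn'.1
      have := (hadj a j (by omega) (by omega)).1 h1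
      omega
    · exact hn'.2 h
  · rcases (hQ n').2 hn'Q with h | h
    · obtain ⟨l, hlj, hn'l⟩ := hidx n' h (forth n' h ⟨F, hF, hbF, hn'.1⟩)
      have hli : i < l := by
        rcases Nat.lt_trichotomy l i with h | h | h
        · exact absurd ⟨l, h, hn'l⟩ hn'A
        · exfalso
          apply htF
          rw [hti, ← h, ← hn'l]
          exact hn'.1
        · exact h
      have h1 : G.Adj (g a) (g l) := by
        rw [← hna, ← hn'l]
        exact hnn'.1
      have := (hadj a l (by omega) (by omega)).1 h1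
      omega
    · have h1 := hsep.only n (hAX n ⟨a, hai, hna⟩) n' h hnn'.1
      exact hnn'.2.1 h1

end Pool.Agent.Helper44.MA
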